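import Pool.Agent.TH109.SY.Final

/-!
# Second order rigidity of compact symmetric spaces

Let `G` be a closed subgroup of a unitary group `U(N)` and `p ↦ s p s` an involution of `G`, where
`s` is a Hermitian matrix with `s² = 1`. Let `K` be the group of the elements of `G` which commute
with `s` and let `Q` be an inner product on the Lie algebra of `G` invariant under `G` and the
involution. Then `G/K` with the metric defined by `Q` is a compact symmetric space. (Every simply
connected compact symmetric space is of this form, for example `S² × S²` and the complex and
quaternionic Grassmannians, and so is every compact Lie group with a bi-invariant metric.)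
The metric has nonnegative curvature, and positive curvature exactly if no two linearly
independent elements of the tangent space `𝔭` commute. For all other spaces we prove that no smooth
deformation of the metric makes the curvature positive to second order: for every `ε > 0` there is
`t₀ > 0` such that every smooth metric `g` on `G/K` with `‖g - Q‖_{C⁴} ≤ t ≤ t₀` has a plane of
sectional curvature at most `ε t²`.
-/

namespace Pool.Agent.Results.MP_4e0d62_gt.SymmetricSpaces

open Pool.Agent.TH109.CG5 Pool.Agent.TH109.SY

/-- Let `Q` be a symmetric metric on the compact symmetric space `G/K`. Then `Q` is rigid to second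
order (for every `ε > 0` there is `t₀ > 0` such that every smooth Riemannian metric `g` on `G/K`
whose `C⁴` distance from `Q` is at most `t`, `0 < t ≤ t₀`, has a tangent plane with sectional
curvature at most `ε t²`) if and only if the tangent space `𝔭` of `G/K` contains two commuting
linearly independent elements, that is, if the rank of `G/K` is at least two. -/
theorem result (N : ℕ) (G : CompactGroup N) (σ : Involution G) (Q : SymProduct σ) :
    (∀ ε : ℝ, 0 < ε → ∃ t₀ : ℝ, 0 < t₀ ∧
      ∀ (g : Pool.Agent.TH109.SY.Metric σ) (t : ℝ), 0 < t → t ≤ t₀ →
        g.CloseTo Q t → ∃ (p : Pt G) (A B : Tan σ), LinearIndependent ℝ ![A, B] ∧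
          g.sec A B p ≤ ε * t ^ 2) ↔
      ∃ A B : Tan σ, LinearIndependent ℝ ![A, B] ∧ brk (inc A) (inc B) = 0 :=
  main Q

end Pool.Agent.Results.MP_4e0d62_gt.SymmetricSpaces
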